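import Mathlib

/-!
# Points of an elliptic curve over multiquadratic extensions

If a curve and its twists by the elements of a multiplicatively closed set `D` have only the trivial point
over `K`, then they have only the trivial point over `K(√d, d ∈ D)`.
-/

set_option autoImplicit false
set_option linter.all false

open scoped Classical IntermediateField

namespace Run7.h23.Mq

/-- The equation `y ^ 2 = x ^ 3 + A x + B` has no solution in `G`. -/
def NP (G : Type) [Field G] (A B : G) : Prop := ∀ x y : G, y ^ 2 ≠ x ^ 3 + A * x + B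

section step

variable {L G : Type} [Field L] [Field G] [Algebra L G] [CharZero L] [FiniteDimensional L G]

theorem exists_sigma (h2 : Module.finrank L G = 2) (δ : G) (d : L) (hd : δ ^ 2 = algebraMap L G d)
    (hδ : δ ∉ Set.range (algebraMap L G)) :
    ∃ σ : G ≃ₐ[L] G, σ δ = -δ ∧ (∀ z, σ (σ z) = z) ∧
      ∀ z, σ z = z → z ∈ Set.range (algebraMap L G) := by
  haveI : Algebra.IsQuadraticExtension L G := ⟨h2⟩
  haveI : IsGalois L G := inferInstance
  have hcard : Nat.card (G ≃ₐ[L] G) = 2 := by
    rw [IsGalois.card_aut_eq_finrank, h2]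
  obtain ⟨σ, hσ, huniq⟩ := (Nat.card_eq_two_iff' (1 : G ≃ₐ[L] G)).1 hcard
  have hall : ∀ f : G ≃ₐ[L] G, f = 1 ∨ f = σ := fun f => by
    by_cases h : f = 1
    · exact Or.inl h
    · exact Or.inr (huniq f h)
  have hfix : ∀ z, σ z = z → z ∈ Set.range (algebraMap L G) := by
    intro z hz
    rw [IsGalois.mem_range_algebraMap_iff_fixed]
    intro f
    rcases hall f with rfl | rfl
    · rfl
    · exact hz
  refine ⟨σ, ?_, ?_, hfix⟩
  · have h1 : σ δ ^ 2 = δ ^ 2 := by
      rw [← map_pow, hd, σ.commutes]
    rcases sq_eq_sq_iff_eq_or_eq_neg.1 h1 with h | h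
    · exact absurd (hfix δ h) hδ
    · exact h
  · intro z
    have h1 : σ * σ = 1 := by
      rcases hall (σ * σ) with h | h
      · exact h
      · exact absurd (mul_eq_left.1 h) hσ
    exact DFunLike.congr_fun h1 z

theorem step (h2 : Module.finrank L G = 2) (δ : G) (d : L) (hd : δ ^ 2 = algebraMap L G d)
    (hδ : δ ∉ Set.range (algebraMap L G)) (A B : L) (hE : 4 * A ^ 3 + 27 * B ^ 2 ≠ 0)
    (hn : NP L A B) (hn' : NP L (A * d ^ 2) (B * d ^ 3)) :
    NP G (algebraMap L G A) (algebraMap L G B) := by
  intro x y hxy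
  obtain ⟨σ, hσδ, hσσ, hfix⟩ := exists_sigma h2 δ d hd hδ
  have hinj : Function.Injective (algebraMap L G) := (algebraMap L G).injective
  set W : WeierstrassCurve L := ⟨0, 0, 0, A, B⟩ with hW
  haveI : CharZero G := charZero_of_injective_algebraMap hinj
  have hΔ : W.Δ ≠ 0 := by
    have : W.Δ = -16 * (4 * A ^ 3 + 27 * B ^ 2) := by
      simp only [hW, WeierstrassCurve.Δ, WeierstrassCurve.b₂, WeierstrassCurve.b₄,
        WeierstrassCurve.b₆, WeierstrassCurve.b₈]
      ring
    rw [this]
    exact mul_ne_zero (by norm_num) hE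
  haveI : W.IsElliptic := ⟨hΔ.isUnit⟩
  haveI : (W.baseChange G).IsElliptic := inferInstanceAs (W.map (algebraMap L G)).IsElliptic
  have heq : (W.baseChange G).toAffine.Equation x y := by
    rw [WeierstrassCurve.Affine.equation_iff]
    simp only [hW, WeierstrassCurve.baseChange, WeierstrassCurve.map, map_zero]
    linear_combination hxy
  have hns : (W.baseChange G).toAffine.Nonsingular x y :=
    (WeierstrassCurve.Affine.equation_iff_nonsingular).1 heq
  set P : (W.baseChange G).toAffine.Point := .some x y hns with hP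
  set m := WeierstrassCurve.Affine.Point.map (W' := W.toAffine) σ.toAlgHom with hm
  have hmm : m (m P) = P := by
    rw [hm, hP, WeierstrassCurve.Affine.Point.map_some, WeierstrassCurve.Affine.Point.map_some]
    have e1 : σ.toAlgHom (σ.toAlgHom x) = x := hσσ x
    have e2 : σ.toAlgHom (σ.toAlgHom y) = y := hσσ y
    simp only [e1, e2]
  have hmQ : m (P + m P) = P + m P := by
    rw [map_add, hmm, add_comm]
  rcases hQ : P + m P with _ | ⟨x', y', h'⟩
  · have h3 : m P = -P := by
      rw [← WeierstrassCurve.Affine.Point.zero_def] at hQ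
      exact (neg_eq_of_add_eq_zero_right hQ).symm
    rw [hm, hP, WeierstrassCurve.Affine.Point.map_some,
      WeierstrassCurve.Affine.Point.neg_some] at h3
    injection h3 with h4 h5
    obtain ⟨x₀, hx₀⟩ := hfix x h4
    have hδ0 : δ ≠ 0 := by
      rintro rfl
      exact hδ ⟨0, map_zero _⟩
    have h5' : σ y = -y := by
      have : σ y = (W.baseChange G).toAffine.negY x y := h5
      rw [this, WeierstrassCurve.Affine.negY]
      simp [hW, WeierstrassCurve.baseChange]
    obtain ⟨b, hb⟩ := hfix (y / δ) (by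
      rw [map_div₀, h5', hσδ, neg_div_neg_eq])
    have hy : y = algebraMap L G b * δ := by
      rw [hb]
      field_simp
    refine hn' (d * x₀) (d ^ 2 * b) (hinj ?_)
    simp only [map_pow, map_mul, map_add]
    rw [← hx₀, hy, mul_pow, hd] at hxy
    linear_combination (algebraMap L G d) ^ 3 * hxy
  · rw [hQ] at hmQ
    rw [hm, WeierstrassCurve.Affine.Point.map_some] at hmQ
    injection hmQ with h4 h5
    obtain ⟨x₀, hx₀⟩ := hfix x' h4
    obtain ⟨y₀, hy₀⟩ := hfix y' h5
    refine hn x₀ y₀ (hinj ?_)
    have h6 := (WeierstrassCurve.Affine.equation_iff x' y').1 h'.1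
    simp only [hW, WeierstrassCurve.baseChange, WeierstrassCurve.map, map_zero] at h6
    simp only [map_pow, map_mul, map_add]
    rw [hx₀, hy₀]
    linear_combination h6

end step

section multi

variable {K F : Type} [Field K] [CharZero K] [Field F] [Algebra K F] [FiniteDimensional K F]

theorem multi (D : Submonoid ℤ) (A B : ℤ)
    (hE : 4 * A ^ 3 + 27 * B ^ 2 ≠ 0) (hD : ∀ d ∈ D, d ≠ 0)
    (h : ∀ d ∈ D, NP K ((A * d ^ 2 : ℤ) : K) ((B * d ^ 3 : ℤ) : K))
    (hF : IntermediateField.adjoin K {x : F | ∃ d ∈ D, x ^ 2 = (d : F)} = ⊤) :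
    ∀ d ∈ D, NP F ((A * d ^ 2 : ℤ) : F) ((B * d ^ 3 : ℤ) : F) := by
  haveI : CharZero F := charZero_of_injective_algebraMap (algebraMap K F).injective
  -- good intermediate fields
  let Gd : Set (IntermediateField K F) := {L | ∀ d ∈ D, ∀ x ∈ L, ∀ y ∈ L,
    y ^ 2 ≠ x ^ 3 + ((A * d ^ 2 : ℤ) : F) * x + ((B * d ^ 3 : ℤ) : F)}
  have hbot : (⊥ : IntermediateField K F) ∈ Gd := by
    intro d hd x hx y hy hxy
    obtain ⟨x₀, rfl⟩ := IntermediateField.mem_bot.1 hx
    obtain ⟨y₀, rfl⟩ := IntermediateField.mem_bot.1 hy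
    refine h d hd x₀ y₀ ((algebraMap K F).injective ?_)
    simpa using hxy
  obtain ⟨L, hL, hmin⟩ := (measure fun L : IntermediateField K F => Module.finrank L F).wf.has_min
    Gd ⟨⊥, hbot⟩
  have hmem : ∀ δ : F, (∃ d ∈ D, δ ^ 2 = (d : F)) → δ ∈ L := by
    rintro δ ⟨d, hdD, hδd⟩
    by_contra hδL
    have hint : IsIntegral L δ := Algebra.IsIntegral.isIntegral δ
    have hnr : δ ∉ (algebraMap L F).range := by
      rintro ⟨z, rfl⟩
      exact hδL z.2
    have hdeg : (minpoly L δ).natDegree = 2 := by
      refine le_antisymm ?_ ((minpoly.two_le_natDegree_iff hint).2 hnr)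
      have hdvd : minpoly L δ ∣ Polynomial.X ^ 2 - Polynomial.C (d : L) := by
        apply minpoly.dvd
        simp [hδd]
      have := Polynomial.natDegree_le_of_dvd hdvd (Polynomial.X_pow_sub_C_ne_zero (by norm_num) _)
      rwa [Polynomial.natDegree_X_pow_sub_C] at this
    haveI : FiniteDimensional L F := FiniteDimensional.right K L F
    have hfr : Module.finrank L (L⟮δ⟯) = 2 := by
      rw [IntermediateField.adjoin.finrank hint, hdeg]
    haveI : FiniteDimensional L (L⟮δ⟯) := inferInstance
    have hgood : (L⟮δ⟯).restrictScalars K ∈ Gd := by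
      intro e he x hx y hy hxy
      have hx' : x ∈ L⟮δ⟯ := hx
      have hy' : y ∈ L⟮δ⟯ := hy
      have hde : d * e ∈ D := D.mul_mem hdD he
      have he0 := hD e he
      have key := step (L := L) (G := L⟮δ⟯) hfr (IntermediateField.AdjoinSimple.gen L δ)
        ((d : ℤ) : L) (by
          apply Subtype.ext
          simp [hδd]) (by
          rintro ⟨z, hz⟩
          apply hnr
          refine ⟨z, ?_⟩
          have := congrArg (algebraMap (L⟮δ⟯) F) hz
          rwa [IntermediateField.AdjoinSimple.algebraMap_gen,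
            ← IsScalarTower.algebraMap_apply] at this)
        ((A * e ^ 2 : ℤ) : L) ((B * e ^ 3 : ℤ) : L) (by
          have h1 : (4 * ((A * e ^ 2 : ℤ) : L) ^ 3 + 27 * ((B * e ^ 3 : ℤ) : L) ^ 2) =
              (((4 * A ^ 3 + 27 * B ^ 2) * e ^ 6 : ℤ) : L) := by
            push_cast
            ring
          rw [h1]
          exact_mod_cast mul_ne_zero hE (pow_ne_zero 6 he0)) (by
          intro u v huv
          refine hL e he u u.2 v v.2 ?_
          have := congrArg (algebraMap L F) huv
          simpa using this) (by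
          intro u v huv
          refine hL (d * e) hde u u.2 v v.2 ?_
          have := congrArg (algebraMap L F) huv
          simp only [map_add, map_mul, map_pow, map_intCast] at this
          push_cast
          change (algebraMap L F v) ^ 2 = (algebraMap L F u) ^ 3 + _ * (algebraMap L F u) + _
          rw [this]
          push_cast
          ring)
      refine key ⟨x, hx'⟩ ⟨y, hy'⟩ ?_
      apply Subtype.ext
      simpa using hxy
    refine hmin _ hgood ?_
    show Module.finrank ((L⟮δ⟯).restrictScalars K) F < Module.finrank L F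
    have h1 : Module.finrank L (L⟮δ⟯) * Module.finrank (L⟮δ⟯) F = Module.finrank L F :=
      Module.finrank_mul_finrank _ _ _
    have h2 : Module.finrank ((L⟮δ⟯).restrictScalars K) F = Module.finrank (L⟮δ⟯) F := rfl
    have h3 : 0 < Module.finrank (L⟮δ⟯) F := Module.finrank_pos
    rw [h2, ← h1, hfr]
    omega
  have htop : L = ⊤ := by
    rw [eq_top_iff, ← hF, IntermediateField.adjoin_le_iff]
    intro δ hδ
    exact hmem δ hδ
  intro d hd x y
  exact hL d hd x (by rw [htop]; trivial) y (by rw [htop]; trivial)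

end multi

end Run7.h23.Mq
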